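import Pool.Agent.H93.GT.Targets

/-!
# GDI: the size of the classes
-/

set_option autoImplicit false

namespace Pool.Agent.H6.GT

open Pool.Agent.H93.GT Pool.Agent.H87.Synth Pool.Agent.H85.SC Finset
open Pool.Agent.H93.ET (sg jj iE iA T_KKL T_CUT T_BRK T_SER T_CRI)

theorem QQ_ge (r : ℕ) : 4 ^ (r + 2) ≤ QQ r := by
  unfold QQ
  refine Nat.le_mul_of_pos_right _ (Finset.prod_pos fun j _ => ?_)
  unfold PP
  exact Nat.mul_pos (Nat.mul_pos (pr_prime j 0).pos (pr_prime j 1).pos) (pr_prime j 2).pos

theorem L_ge {d : ℕ → ℝ} (P : Pos d) (r : ℕ) : (6 * QQ r) ^ 2 ≤ P.L r :=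
  Nat.le_of_dvd (P.hL r).1 (P.hLQ r)

theorem Ld {d : ℕ → ℝ} (hd : Monotone d) (P : Pos d) (r k : ℕ)
    (hk : P.X r / (100 * 4 ^ (r + 3)) ≤ k) :
    4 * (P.L r : ℝ) ≤ d k := (P.hLd r).trans (hd hk)

theorem win {d : ℕ → ℝ} (hd : Monotone d) (A0 A1 : ℕ) (h : (A1 : ℝ) - A0 ≤ d A0) (z z' : ℤ)
    (h1 : (A0 : ℤ) ≤ z) (h2 : z < A1) (h3 : (A0 : ℤ) ≤ z') (h4 : z' < A1) :
    |(z.natAbs : ℝ) - z'.natAbs| ≤ d (min z.natAbs z'.natAbs) := by
  have e1 : (A0 : ℝ) ≤ z.natAbs := by
    have : A0 ≤ z.natAbs := by omega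
    exact_mod_cast this
  have e2 : (z.natAbs : ℝ) ≤ A1 := by
    have : z.natAbs ≤ A1 := by omega
    exact_mod_cast this
  have e3 : (A0 : ℝ) ≤ z'.natAbs := by
    have : A0 ≤ z'.natAbs := by omega
    exact_mod_cast this
  have e4 : (z'.natAbs : ℝ) ≤ A1 := by
    have : z'.natAbs ≤ A1 := by omega
    exact_mod_cast this
  have e5 : A0 ≤ min z.natAbs z'.natAbs := by
    refine le_min ?_ ?_ <;> omega
  refine le_trans ?_ (hd e5)
  rw [abs_le]
  constructor <;> linarith

theorem Mo_pos (n : ℕ) : 0 < Mo n := by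
  unfold Mo
  positivity

theorem gdi (h1 : T_ZON) (h2 : T_GSZ) (h3 : T_PRE) (h4 : T_GSG) (h5 : T_LNS) : T_GDI := by
  intro d hd P S c z hz z' hz'
  obtain ⟨Z1, Z2, Z3⟩ := h1 d P
  obtain ⟨_, _, _, _, _, G6⟩ := h2 d P
  obtain ⟨_, R2, _⟩ := h3
  obtain ⟨S1, _, _, _, _, S6⟩ := h4 d P
  cases c with
  | blk n i m s =>
    simp only [Pos.cls] at hz hz'
    split_ifs at hz hz' with hc hm
    · -- `m = 0`
      obtain ⟨hn, hv, hi, hN⟩ := hc
      subst hm
      have hMo : (1 : ℝ) ≤ Mo n := by exact_mod_cast Mo_pos n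
      have hb0 := P.hb0 n i hv hi
      obtain ⟨hb1, hb2⟩ := P.hbm n i 0 hv hi hN
      have hl := P.ln1 n i 0 hv hi hN
      have hL := Ld hd P (ps n i) (P.X (ps n i)) (Nat.div_le_self _ _)
      have hLp : (0 : ℝ) < P.L (ps n i) := by exact_mod_cast (P.hL (ps n i)).1
      have key : ∀ y : ℤ, y ∈ P.AB n i 0 s ∪ P.EM n i (sg s) →
          (P.X (ps n i) : ℤ) ≤ y ∧ y < (max (12 * Mo n * P.b n i 1)
            (P.X (ps n i) + P.L (ps n i)) : ℕ) := by
        intro y hy
        rcases Finset.mem_union.1 hy with hy | hy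
        · obtain ⟨y1, y2⟩ := Z3 n i 0 s y hv hi hN (Or.inl hy)
          rw [zero_add] at y2
          constructor
          · rw [← hb0]
            push_cast
            exact y1
          · refine lt_of_lt_of_le y2 ?_
            have : 12 * Mo n * P.b n i 1 ≤ max (12 * Mo n * P.b n i 1)
              (P.X (ps n i) + P.L (ps n i)) := le_max_left _ _
            exact_mod_cast this
        · obtain ⟨n', i', r1, _, r3, _⟩ := S6 n i (sg s) y hv hi hy
          obtain ⟨_, r4, r5, _⟩ := r1
          rw [r3] at r4 r5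
          refine ⟨r4, lt_of_lt_of_le r5 ?_⟩
          have : P.X (ps n i) + P.L (ps n i) ≤ max (12 * Mo n * P.b n i 1)
            (P.X (ps n i) + P.L (ps n i)) := le_max_right _ _
          exact_mod_cast this
      refine win hd (P.X (ps n i)) (max (12 * Mo n * P.b n i 1) (P.X (ps n i) + P.L (ps n i)))
        ?_ z z' (key z hz).1 (key z hz).2 (key z' hz').1 (key z' hz').2
      rw [Nat.cast_max, sub_le_iff_le_add]
      refine max_le ?_ ?_
      · have hb0r : (12 * Mo n * P.b n i 0 : ℝ) = P.X (ps n i) := by exact_mod_cast hb0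
        have hdd : d (P.b n i 0) ≤ d (P.X (ps n i)) := by
          refine hd ?_
          rw [← hb0]
          have := Mo_pos n
          nlinarith [Nat.zero_le (P.b n i 0)]
        have hb1r : (P.b n i 0 : ℝ) ≤ P.b n i 1 := by exact_mod_cast hb1.le
        rw [zero_add] at hl
        push_cast
        have e1 : (12 * Mo n * P.b n i 1 : ℝ) = P.X (ps n i) +
            12 * Mo n * ((P.b n i 1 : ℝ) - P.b n i 0) := by
          rw [← hb0r]
          ring
        have e2 : 0 ≤ (Mo n : ℝ) * ((P.b n i 1 : ℝ) - P.b n i 0) := by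
          refine mul_nonneg (by linarith) (by linarith)
        rw [e1]
        nlinarith
      · push_cast
        linarith
    · -- `m ≥ 1`
      obtain ⟨hn, hv, hi, hN⟩ := hc
      obtain ⟨k, rfl⟩ : ∃ k, m = k + 1 := ⟨m - 1, by omega⟩
      have hMo : (1 : ℝ) ≤ Mo n := by exact_mod_cast Mo_pos n
      rw [Nat.add_sub_cancel] at hz hz'
      obtain ⟨hb1, hb2⟩ := P.hbm n i k hv hi (by omega)
      obtain ⟨hb3, hb4⟩ := P.hbm n i (k + 1) hv hi hN
      have hl := P.ln2 n i k hv hi hN
      have key : ∀ y : ℤ, y ∈ P.AB n i (k + 1) s ∪ P.EB n i k s →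
          ((12 * Mo n * P.b n i k : ℕ) : ℤ) ≤ y ∧ y < ((12 * Mo n * P.b n i (k + 2) : ℕ) : ℤ) := by
        intro y hy
        rcases Finset.mem_union.1 hy with hy | hy
        · obtain ⟨y1, y2⟩ := Z3 n i (k + 1) s y hv hi hN (Or.inl hy)
          refine ⟨le_trans ?_ y1, ?_⟩
          · push_cast
            exact mul_le_mul_of_nonneg_left (by exact_mod_cast hb1.le) (by positivity)
          · push_cast
            exact y2
        · obtain ⟨y1, y2⟩ := Z3 n i k s y hv hi (by omega) (Or.inr hy)
          refine ⟨?_, lt_of_lt_of_le y2 ?_⟩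
          · push_cast
            exact y1
          · push_cast
            exact mul_le_mul_of_nonneg_left (by exact_mod_cast hb3.le) (by positivity)
      refine win hd (12 * Mo n * P.b n i k) (12 * Mo n * P.b n i (k + 2)) ?_ z z' (key z hz).1
        (key z hz).2 (key z' hz').1 (key z' hz').2
      have hdd : d (P.b n i k) ≤ d (12 * Mo n * P.b n i k) := by
        refine hd ?_
        have := Mo_pos n
        nlinarith [Nat.zero_le (P.b n i k)]
      have hr : (P.b n i k : ℝ) ≤ P.b n i (k + 2) := by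
        have : P.b n i k ≤ P.b n i (k + 2) := (hb1.trans hb3).le
        exact_mod_cast this
      have e2 : 0 ≤ (Mo n : ℝ) * ((P.b n i (k + 2) : ℝ) - P.b n i k) := by
        refine mul_nonneg (by linarith) (by linarith)
      push_cast
      nlinarith
    · exact absurd hz (Finset.notMem_empty _)
  | sta n i s =>
    simp only [Pos.cls] at hz hz'
    split_ifs at hz hz' with hc
    · obtain ⟨hn, hv, hi⟩ := hc
      obtain ⟨_, hN, _⟩ := G6 n i hv hi
      obtain ⟨k, hk⟩ : ∃ k, P.N n i = k + 1 := ⟨P.N n i - 1, by omega⟩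
      rw [hk, Nat.add_sub_cancel] at hz hz'
      have hMo : (1 : ℝ) ≤ Mo n := by exact_mod_cast Mo_pos n
      have hbN := P.hbN n i hv hi
      rw [hk] at hbN
      obtain ⟨hb1, hb2⟩ := P.hbm n i k hv hi (by omega)
      have hl := P.ln1 n i k hv hi (by omega)
      set r := slot n i with hr
      have key : ∀ y : ℤ, y ∈ P.FA n i (sg s) ∪ P.EB n i k s →
          ((12 * Mo n * P.b n i k : ℕ) : ℤ) ≤ y ∧ y < ((P.X r + P.L r : ℕ) : ℤ) := by
        intro y hy
        rcases Finset.mem_union.1 hy with hy | hy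
        · have hy1 : y ∈ P.RS n i := (Finset.mem_filter.1 hy).1
          obtain ⟨_, r4, r5, _⟩ := (S1 n i y).1 hy1
          refine ⟨le_trans ?_ r4, ?_⟩
          · rw [← hr, ← hbN]
            push_cast
            exact mul_le_mul_of_nonneg_left (by exact_mod_cast hb1.le) (by positivity)
          · push_cast
            exact r5
        · obtain ⟨y1, y2⟩ := Z3 n i k s y hv hi (by omega) (Or.inr hy)
          refine ⟨?_, ?_⟩
          · push_cast
            exact y1
          · have e1 : (12 * (Mo n : ℤ) * P.b n i (k + 1)) = P.X r := by exact_mod_cast hbN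
            rw [e1] at y2
            push_cast
            linarith [Int.natCast_nonneg (P.L r)]
      refine win hd (12 * Mo n * P.b n i k) (P.X r + P.L r) ?_ z z' (key z hz).1
        (key z hz).2 (key z' hz').1 (key z' hz').2
      have hdd : d (P.b n i k) ≤ d (12 * Mo n * P.b n i k) := by
        refine hd ?_
        have := Mo_pos n
        nlinarith [Nat.zero_le (P.b n i k)]
      have hdL : 4 * (P.L r : ℝ) ≤ d (12 * Mo n * P.b n i k) := by
        refine Ld hd P r _ ?_
        refine Nat.div_le_of_le_mul ?_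
        have e1 : P.X r ≤ 2 * (12 * Mo n * P.b n i k) := by
          rw [← hbN]
          calc 12 * Mo n * P.b n i (k + 1) ≤ 12 * Mo n * (2 * P.b n i k) :=
                Nat.mul_le_mul_left _ hb2
            _ = 2 * (12 * Mo n * P.b n i k) := by ring
        refine e1.trans (Nat.mul_le_mul_right _ ?_)
        have : 1 ≤ 4 ^ (r + 3) := Nat.one_le_pow _ _ (by norm_num)
        omega
      have hbr : (P.b n i k : ℝ) ≤ P.b n i (k + 1) := by exact_mod_cast hb1.le
      have e2 : 0 ≤ (Mo n : ℝ) * ((P.b n i (k + 1) : ℝ) - P.b n i k) := by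
        refine mul_nonneg (by linarith) (by linarith)
      have hbNr : (12 * Mo n * P.b n i (k + 1) : ℝ) = P.X r := by exact_mod_cast hbN
      push_cast
      rw [← hbNr]
      have hLp : (0 : ℝ) < P.L r := by exact_mod_cast (P.hL r).1
      nlinarith
    · exact absurd hz (Finset.notMem_empty _)
  | lst n i =>
    simp only [Pos.cls] at hz hz'
    split_ifs at hz hz' with hc
    · have key : ∀ y : ℤ, y ∈ P.FS n i 1 ∪ P.FS n i (-1) →
          (P.X (slot n i) : ℤ) ≤ y ∧ y < ((P.X (slot n i) + P.L (slot n i) : ℕ) : ℤ) := by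
        intro y hy
        have hy1 : y ∈ P.RS n i := by
          rcases Finset.mem_union.1 hy with hy | hy
          · exact (Finset.mem_filter.1 hy).1
          · exact (Finset.mem_filter.1 hy).1
        obtain ⟨_, r4, r5, _⟩ := (S1 n i y).1 hy1
        exact ⟨r4, by push_cast; exact r5⟩
      refine win hd _ _ ?_ z z' (key z hz).1 (key z hz).2 (key z' hz').1 (key z' hz').2
      have hL := Ld hd P (slot n i) (P.X (slot n i)) (Nat.div_le_self _ _)
      have hLp : (0 : ℝ) < P.L (slot n i) := by exact_mod_cast (P.hL (slot n i)).1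
      push_cast
      linarith
    · exact absurd hz (Finset.notMem_empty _)
  | ldr n i =>
    simp only [Pos.cls] at hz hz'
    split_ifs at hz hz' with hc
    · have key : ∀ y : ℤ, y ∈ P.FD n i 1 ∪ P.FD n i (-1) →
          (P.X (slot n i) : ℤ) ≤ y ∧ y < ((P.X (slot n i) + P.L (slot n i) : ℕ) : ℤ) := by
        intro y hy
        have hy1 : y ∈ P.RS n i := by
          rcases Finset.mem_union.1 hy with hy | hy
          · exact (Finset.mem_filter.1 hy).1
          · exact (Finset.mem_filter.1 hy).1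
        obtain ⟨_, r4, r5, _⟩ := (S1 n i y).1 hy1
        exact ⟨r4, by push_cast; exact r5⟩
      refine win hd _ _ ?_ z z' (key z hz).1 (key z hz).2 (key z' hz').1 (key z' hz').2
      have hL := Ld hd P (slot n i) (P.X (slot n i)) (Nat.div_le_self _ _)
      have hLp : (0 : ℝ) < P.L (slot n i) := by exact_mod_cast (P.hL (slot n i)).1
      push_cast
      linarith
    · exact absurd hz (Finset.notMem_empty _)
  | par n i t s =>
    simp only [Pos.cls] at hz hz'
    split_ifs at hz hz' with hc
    · obtain ⟨hn, hv, hi, hg, _⟩ := hc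
      obtain ⟨_, r2, _⟩ := R2 n i hv hi
      have key : ∀ y : ℤ, y ∈ ({pp n i t 0 s, pp n i t 1 s} : Finset ℤ) →
          (P.X (ps n i) : ℤ) ≤ 4 * |y| ∧ pp n i t 0 s ≤ y ∧ y ≤ pp n i t 0 s + 6 * Mo n := by
        intro y hy
        have hM : (0 : ℤ) < Mo n := by exact_mod_cast Mo_pos n
        have e1 : pp n i t 1 s = pp n i t 0 s + 6 * Mo n := by
          unfold pp
          ring
        rcases Finset.mem_insert.1 hy with rfl | hy
        · exact ⟨(Z1 n i t 0 s hv hi hg (Or.inl rfl)).1, le_rfl, by linarith⟩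
        · rw [Finset.mem_singleton] at hy
          subst hy
          refine ⟨(Z1 n i t 1 s hv hi hg (Or.inr rfl)).1, ?_, ?_⟩ <;> linarith
      obtain ⟨a1, a2, a3⟩ := key z hz
      obtain ⟨b1, b2, b3⟩ := key z' hz'
      have c1 : |(z.natAbs : ℝ) - z'.natAbs| ≤ 6 * Mo n := by
        have e1 : |(z.natAbs : ℤ) - z'.natAbs| ≤ 6 * Mo n := by
          rw [abs_le]
          constructor <;> omega
        exact_mod_cast e1
      refine c1.trans ?_
      have c2 : 4 * (P.L (ps n i) : ℝ) ≤ d (min z.natAbs z'.natAbs) := by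
        refine Ld hd P (ps n i) _ ?_
        have c3 : P.X (ps n i) ≤ 4 * min z.natAbs z'.natAbs := by
          have q1 : P.X (ps n i) ≤ 4 * z.natAbs := by
            rw [Int.abs_eq_natAbs] at a1
            exact_mod_cast a1
          have q2 : P.X (ps n i) ≤ 4 * z'.natAbs := by
            rw [Int.abs_eq_natAbs] at b1
            exact_mod_cast b1
          omega
        refine Nat.div_le_of_le_mul (c3.trans (Nat.mul_le_mul_right _ ?_))
        have : 1 ≤ 4 ^ (ps n i + 3) := Nat.one_le_pow _ _ (by norm_num)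
        omega
      refine le_trans ?_ c2
      have c4 : 6 * Mo n ≤ 4 * P.L (ps n i) := by
        have q1 := L_ge P (ps n i)
        have q2 := QQ_ge (ps n i)
        have q3 : Mo n ≤ QQ (ps n i) := by
          refine le_trans ?_ q2
          unfold Mo
          exact Nat.pow_le_pow_right (by norm_num) (by omega)
        have q4 : 1 ≤ QQ (ps n i) := (Nat.one_le_pow _ _ (by norm_num)).trans q2
        nlinarith
      exact_mod_cast c4
    · exact absurd hz (Finset.notMem_empty _)

end Pool.Agent.H6.GT
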